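import Mathlib
import Pool.Agent.H62.PRootStmt
import Pool.Agent.H62.PRootFinal

set_option autoImplicit false

namespace Pool.Agent.Results.MP_41caf5_nt.Q2False

open Pool.Agent.H62.PRootStmt Pool.Agent.H62.PRoot

theorem result :
    ∃ (a : ℤ) (n : ℕ), a < 0 ∧ (¬ ∃ (x : ℤ) (m : ℕ), 1 < m ∧ x ^ m = a) ∧ 1 ≤ n ∧
      (a, n) ≠ (-2, 13) ∧ ((n + 1 : ℕ) : ℕ∞) ≤ (S a).encard ∧
      (pn a n : ℝ) ^ (1 + 1 / (n : ℝ)) ≤ (pn a (n + 1) : ℝ) := by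
  have h := ct_ge
  refine ⟨-3, ct 51459203, by norm_num, not_pp, by omega, by simp, ?_, ?_⟩
  · rw [← ct_succ]; exact ct_le_encard _
  · rw [← ct_succ, pn_ct mem_P, pn_ct mem_Q]
    exact real_ineq _ h

end Pool.Agent.Results.MP_41caf5_nt.Q2False
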